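import Mathlib

/-!
# Stability of finite monoids, and the cancellation rule inside a J-class
-/

set_option autoImplicit false

namespace Pool.Agent.Helper97.LO.Alg

variable {M : Type} [Monoid M] [Finite M]

theorem pow_eq_of_sandwich {a u w : M} (h : a = u * a * w) : ∀ n : ℕ, a = u ^ n * a * w ^ n := by
  intro n
  induction n with
  | zero => simp
  | succ n ih =>
    calc a = u * a * w := h
      _ = u * (u ^ n * a * w ^ n) * w := by rw [← ih]
      _ = u ^ (n + 1) * a * w ^ (n + 1) := by
        rw [pow_succ' u n, pow_succ w n]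
        simp only [mul_assoc]

/-- the right hand factor of a sandwich may be used alone -/
theorem exists_right_of_sandwich {a u w : M} (h : a = u * a * w) :
    ∃ n : ℕ, a = a * w ^ (n + 1) := by
  obtain ⟨i, j, hij, he⟩ := Finite.exists_ne_map_eq_of_infinite (fun n : ℕ => u ^ n)
  have main : ∀ i j : ℕ, i < j → u ^ i = u ^ j → ∃ n : ℕ, a = a * w ^ (n + 1) := by
    intro i j hlt he
    obtain ⟨d, rfl⟩ := Nat.exists_eq_add_of_lt hlt
    refine ⟨d, ?_⟩
    have h1 := pow_eq_of_sandwich h (i + d + 1)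
    rw [← he, show i + d + 1 = i + (d + 1) by ring, pow_add w i (d + 1), ← mul_assoc,
      ← pow_eq_of_sandwich h i] at h1
    exact h1
  rcases lt_or_gt_of_ne hij with h1 | h1
  · exact main i j h1 he
  · exact main j i h1 he.symm

theorem exists_left_of_sandwich {a u w : M} (h : a = u * a * w) :
    ∃ n : ℕ, a = u ^ (n + 1) * a := by
  obtain ⟨i, j, hij, he⟩ := Finite.exists_ne_map_eq_of_infinite (fun n : ℕ => w ^ n)
  have main : ∀ i j : ℕ, i < j → w ^ i = w ^ j → ∃ n : ℕ, a = u ^ (n + 1) * a := by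
    intro i j hlt he
    obtain ⟨d, rfl⟩ := Nat.exists_eq_add_of_lt hlt
    refine ⟨d, ?_⟩
    have h1 := pow_eq_of_sandwich h (i + d + 1)
    rw [← he, show i + d + 1 = (d + 1) + i by ring, pow_add u (d + 1) i, mul_assoc, mul_assoc,
      ← mul_assoc (u ^ i), ← pow_eq_of_sandwich h i] at h1
    exact h1
  rcases lt_or_gt_of_ne hij with h1 | h1
  · exact main i j h1 he
  · exact main j i h1 he.symm

/-- stability: `a` is J-equivalent to `a b` implies `a` is R-equivalent to `a b` -/
theorem stab_right {a b u v : M} (h : a = u * (a * b) * v) : ∃ p, a = a * b * p := by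
  have h1 : a = u * a * (b * v) := by
    conv_lhs => rw [h]
    simp only [mul_assoc]
  obtain ⟨n, hn⟩ := exists_right_of_sandwich h1
  refine ⟨v * (b * v) ^ n, ?_⟩
  rw [pow_succ'] at hn
  conv_lhs => rw [hn]
  simp only [mul_assoc]

theorem stab_left {a b u v : M} (h : a = u * (b * a) * v) : ∃ q, a = q * (b * a) := by
  have h1 : a = (u * b) * a * v := by
    conv_lhs => rw [h]
    simp only [mul_assoc]
  obtain ⟨n, hn⟩ := exists_left_of_sandwich h1
  refine ⟨(u * b) ^ n * u, ?_⟩
  rw [pow_succ] at hn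
  conv_lhs => rw [hn]
  simp only [mul_assoc]

/-- **Cancellation on the right inside a J-class.** `s` is the label of `(z, w)`, `s'` of
`(z', w)`, `b` of `(w, y)` and `c` of `(z, z')`, `z < z' < w < y`. -/
theorem cancel_right {s s' b c : M} (h1 : s = c * s') (h2 : s * b = s' * b)
    (h3 : ∃ u v, s = u * (s * b) * v) (h4 : ∃ u v, s' = u * s * v) : s = s' := by
  obtain ⟨u, v, h3⟩ := h3
  obtain ⟨u', v', h4⟩ := h4
  obtain ⟨p, hp⟩ := stab_right h3
  have h5 : s' = u' * (c * s') * v' := by rw [← h1]; exact h4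
  obtain ⟨q, hq⟩ := stab_left h5
  rw [← h1] at hq
  calc s = s * b * p := hp
    _ = s' * b * p := by rw [h2]
    _ = q * s * b * p := by rw [← hq]
    _ = q * (s * b * p) := by simp only [mul_assoc]
    _ = q * s := by rw [← hp]
    _ = s' := hq.symm

/-- **Cancellation on the left inside a J-class.** `s` is the label of `(z, w)`, `s'` of
`(z, w')`, `b` of `(x, z)` and `c` of `(w', w)`, `x < z < w' < w`. -/
theorem cancel_left {s s' b c : M} (h1 : s = s' * c) (h2 : b * s = b * s')
    (h3 : ∃ u v, s = u * (b * s) * v) (h4 : ∃ u v, s' = u * s * v) : s = s' := by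
  obtain ⟨u, v, h3⟩ := h3
  obtain ⟨u', v', h4⟩ := h4
  obtain ⟨p, hp⟩ := stab_left h3
  have h5 : s' = u' * (s' * c) * v' := by rw [← h1]; exact h4
  obtain ⟨q, hq⟩ := stab_right h5
  rw [← h1] at hq
  calc s = p * (b * s) := hp
    _ = p * (b * s') := by rw [h2]
    _ = p * (b * (s * q)) := by rw [← hq]
    _ = p * (b * s) * q := by simp only [mul_assoc]
    _ = s * q := by rw [← hp]
    _ = s' := hq.symm

/-- if `s` and `a s` are J-equivalent, `t` and `t b` are J-equivalent, `a s = a t` and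
`s b = t b`, then `s = t` -/
theorem eq_of_J {a s t b : M} (h1 : a * s = a * t) (h2 : s * b = t * b)
    (h3 : ∃ u v, s = u * (a * s) * v) (h4 : ∃ u v, t = u * (t * b) * v) : s = t := by
  obtain ⟨u, v, h3⟩ := h3
  obtain ⟨u', v', h4⟩ := h4
  obtain ⟨q, hq⟩ := stab_left h3
  obtain ⟨p, hp⟩ := stab_right h4
  calc s = q * (a * s) := hq
    _ = q * (a * t) := by rw [h1]
    _ = q * (a * (t * b * p)) := by rw [← hp]
    _ = q * (a * (s * b * p)) := by rw [h2]
    _ = q * (a * s) * (b * p) := by simp only [mul_assoc]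
    _ = s * (b * p) := by rw [← hq]
    _ = s * b * p := by simp only [mul_assoc]
    _ = t * b * p := by rw [h2]
    _ = t := hp.symm

/-- the factor order has maximal elements -/
theorem exists_jmax {ι : Type} [Nonempty ι] (f : ι → M) :
    ∃ i, ∀ j, (∃ u v, f i = u * f j * v) → ∃ u v, f j = u * f i * v := by
  classical
  let r : ι → ι → Prop := fun i j => ∃ u v, f i = u * f j * v
  have htr : ∀ i j k, r i j → r j k → r i k := by
    rintro i j k ⟨u, v, h1⟩ ⟨u', v', h2⟩
    refine ⟨u * u', v' * v, ?_⟩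
    rw [h1, h2]
    simp only [mul_assoc]
  -- the set of elements of the monoid which are values above the value of `i`
  let U : ι → Set M := fun i => {m | ∃ j, f j = m ∧ r i j}
  obtain ⟨i, hi⟩ : ∃ i, ∀ j, (U i).ncard ≤ (U j).ncard := by
    obtain ⟨n, ⟨i, hi⟩, hmin⟩ := WellFounded.has_min (wellFounded_lt (α := ℕ))
      (Set.range fun i => (U i).ncard) (Set.range_nonempty _)
    refine ⟨i, fun j => ?_⟩
    have h1 := hmin _ ⟨j, rfl⟩
    rw [← hi] at h1
    exact not_lt.mp h1
  refine ⟨i, fun j hij => ?_⟩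
  have hij' : r i j := hij
  have hsub : U j ⊆ U i := by
    rintro m ⟨k, hk, hjk⟩
    exact ⟨k, hk, htr i j k hij' hjk⟩
  have heq : U j = U i := Set.eq_of_subset_of_ncard_le hsub (hi j) (Set.toFinite _)
  have hmem : f i ∈ U j := by
    rw [heq]
    exact ⟨i, rfl, 1, 1, by simp⟩
  obtain ⟨k, hk, u, v, hjk⟩ := hmem
  refine ⟨u, v, ?_⟩
  rw [hjk, hk]

end Pool.Agent.Helper97.LO.Alg
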