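import Pool.Agent.Helper79.VCL.Alg
import Pool.Agent.Helper6.T2.Defs

/-!
# Labelled sums: an interval in which all cross labels are determined by unary data
-/

set_option autoImplicit false
set_option linter.unusedSectionVars false
set_option linter.unusedVariables false

namespace Pool.Agent.Helper97.LO

open Set

variable {L : FirstOrder.Language.{0, 0}} {M : Type} [Preorder M] {G : Type} [Monoid G]
  {r : L.Relations 2} {o : Bool} {lab : M → M → G} {S : L.Structure M}

/-- `Cr` is a property of pairs `x ≤ y` which passes to larger intervals. If some pair has it,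
there is a pair `x ≤ y` with `Cr` such that the labels of the pairs with `Cr` inside `[x,y]` are
determined by the labels from `x` and the labels to `y`. -/
theorem LSt.exists_max [Finite G] (hO : LSt r o lab S) (Cr : M → M → Prop)
    (hle : ∀ x y, Cr x y → x ≤ y) (hne : ∃ x y, Cr x y) :
    ∃ x y, Cr x y ∧ ∀ z w z' w', x ≤ z → w ≤ y → x ≤ z' → w' ≤ y → Cr z w → Cr z' w' →
      lab x z = lab x z' → lab x w = lab x w' → lab z y = lab z' y → lab w y = lab w' y →
      lab z w = lab z' w' := by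
  classical
  obtain ⟨x₀, y₀, h₀⟩ := hne
  have : Nonempty {p : M × M // Cr p.1 p.2} := ⟨⟨(x₀, y₀), h₀⟩⟩
  obtain ⟨⟨⟨x, y⟩, hxy⟩, hmax⟩ := Alg.exists_jmax
    (fun p : {p : M × M // Cr p.1 p.2} => lab p.1.1 p.1.2)
  refine ⟨x, y, hxy, fun z w z' w' hz hw hz' hw' hzw hzw' e1 e2 e3 e4 => ?_⟩
  have key : ∀ z w, x ≤ z → w ≤ y → Cr z w → lab x y = lab x z * lab z w * lab w y ∧
      ∃ u v, lab z w = u * lab x y * v := by
    intro z w hz hw hzw
    have h1 : lab x y = lab x z * lab z w * lab w y := by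
      rw [hO.mul x w y (hz.trans (hle _ _ hzw)) hw, hO.mul x z w hz (hle _ _ hzw)]
    exact ⟨h1, hmax ⟨(z, w), hzw⟩ ⟨lab x z, lab w y, h1⟩⟩
  obtain ⟨h1, u, v, h2⟩ := key z w hz hw hzw
  obtain ⟨h3, u', v', h4⟩ := key z' w' hz' hw' hzw'
  refine Alg.eq_of_J (a := lab x z) (b := lab w y) ?_ ?_ ?_ ?_
  · rw [← hO.mul x z w hz (hle _ _ hzw), e1, ← hO.mul x z' w' hz' (hle _ _ hzw'), e2]
  · rw [← hO.mul z w y (hle _ _ hzw) hw, e4, ← hO.mul z' w' y (hle _ _ hzw') hw', e3]
  · refine ⟨u, lab w y * v, ?_⟩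
    conv_lhs => rw [h2, h1]
    simp only [mul_assoc]
  · refine ⟨u' * lab x z', v', ?_⟩
    rw [e4]
    conv_lhs => rw [h4, h3]
    simp only [mul_assoc]

end Pool.Agent.Helper97.LO
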